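import Pool.Agent.L7h55.TN.Stm2

set_option autoImplicit false

/-! [GAU] of project TN (helper55). -/

open Polynomial

namespace Pool.Agent.L7h6.TN

open Pool.Agent.L7h55.TN

theorem L4_monic : L4.Monic := by
  unfold L4
  have h1 : (X - 1 : ℤ[X]).Monic := by simpa using monic_X_sub_C (1 : ℤ)
  have h2 : (X + 1 : ℤ[X]).Monic := by simpa using monic_X_add_C (1 : ℤ)
  exact (h1.pow 3).mul h2

theorem L4_deg : L4.natDegree = 4 := by
  unfold L4
  have h1 : (X - 1 : ℤ[X]).Monic := by simpa using monic_X_sub_C (1 : ℤ)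
  have h2 : (X + 1 : ℤ[X]).Monic := by simpa using monic_X_add_C (1 : ℤ)
  have h3 : (X - 1 : ℤ[X]).natDegree = 1 := by simpa using natDegree_X_sub_C (1 : ℤ)
  have h4 : (X + 1 : ℤ[X]).natDegree = 1 := by simpa using natDegree_X_add_C (1 : ℤ)
  rw [(h1.pow 3).natDegree_mul h2, h1.natDegree_pow, h3, h4]

theorem T_coeff (A k : ℕ) : (T A).coeff k = (A : ℤ) * ((if k = 2 * A + 2 then 1 else 0) -
    (if k = 0 then 1 else 0)) - ((A : ℤ) + 1) * ((if k = 2 * A + 1 then 1 else 0) -
    (if k = 1 then 1 else 0)) := by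
  unfold T
  rw [coeff_sub, coeff_C_mul]
  have h1 : (C ((A : ℤ) + 1) * (X ^ (2 * A + 1) - X) : ℤ[X]).coeff k =
      ((A : ℤ) + 1) * (X ^ (2 * A + 1) - X : ℤ[X]).coeff k := coeff_C_mul _
  rw [h1, coeff_sub, coeff_sub, coeff_X_pow, coeff_X_pow, coeff_one, coeff_X]
  simp only [eq_comm]

theorem T_lead (A : ℕ) (hA : 2 ≤ A) : (T A).natDegree = 2 * A + 2 ∧ (T A).leadingCoeff = A := by
  have h1 : (T A).coeff (2 * A + 2) = A := by
    rw [T_coeff, if_pos rfl, if_neg (by omega), if_neg (by omega), if_neg (by omega)]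
    ring
  have h2 : (T A).natDegree ≤ 2 * A + 2 := by
    rw [natDegree_le_iff_coeff_eq_zero]
    intro N hN
    rw [T_coeff, if_neg (by omega), if_neg (by omega), if_neg (by omega), if_neg (by omega)]
    ring
  have h3 : (T A).natDegree = 2 * A + 2 := by
    refine le_antisymm h2 (le_natDegree_of_ne_zero ?_)
    rw [h1]
    exact_mod_cast (by omega : A ≠ 0)
  exact ⟨h3, by rw [leadingCoeff, h3, h1]⟩

theorem T_prim (A : ℕ) (hA : 2 ≤ A) : (T A).IsPrimitive := by
  intro r hr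
  rw [C_dvd_iff_dvd_coeff] at hr
  have h0 := hr 0
  have h1 := hr 1
  rw [T_coeff, if_neg (by omega), if_pos rfl, if_neg (by omega), if_neg (by omega)] at h0
  rw [T_coeff, if_neg (by omega), if_neg (by omega), if_neg (by omega), if_pos rfl] at h1
  have h2 : r ∣ (1 : ℤ) := by
    have h3 := dvd_add h0 h1
    ring_nf at h3
    exact h3
  exact isUnit_of_dvd_one h2

theorem SP_eq (A : ℕ) : SP (2 * A + 1) = C 2 * T A := by
  unfold SP T
  have h1 : ((2 * A + 1 : ℕ) : ℤ) - 1 = 2 * A := by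
    push_cast
    ring
  have h2 : ((2 * A + 1 : ℕ) : ℤ) + 1 = 2 * ((A : ℤ) + 1) := by
    push_cast
    ring
  rw [h1, h2, C_mul, C_mul]
  ring

theorem pos_deg {Q f : ℤ[X]} (hQ : Q.IsPrimitive) (hf : f ∣ Q) (hu : ¬ IsUnit f) :
    0 < f.natDegree := by
  rw [Nat.pos_iff_ne_zero]
  intro h
  apply hu
  have h1 := eq_C_of_natDegree_eq_zero h
  rw [h1]
  exact isUnit_C.2 (hQ _ (by rw [← h1]; exact hf))

theorem s_GAU : S_GAU := by
  intro A P hA hP hirr
  have hinj : Function.Injective (Int.castRingHom ℚ) := Int.cast_injective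
  have h2u : IsUnit (C (2 : ℚ)) := isUnit_C.2 (by norm_num)
  have hL : (X - 1) ^ 3 * (X + 1) = L4.map (Int.castRingHom ℚ) := by
    unfold L4
    simp
  have hS : (SP (2 * A + 1)).map (Int.castRingHom ℚ) =
      C (2 : ℚ) * (T A).map (Int.castRingHom ℚ) := by
    rw [SP_eq, Polynomial.map_mul, map_C]
    simp
  rw [hL, hS] at hP
  have hd : L4 ∣ T A := by
    rw [← map_dvd_map (Int.castRingHom ℚ) hinj L4_monic]
    exact (h2u.dvd_mul_left).1 ⟨P, hP.symm⟩
  obtain ⟨Q, hQ⟩ := hd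
  have hL0 : L4.map (Int.castRingHom ℚ) ≠ 0 := (L4_monic.map _).ne_zero
  have hPQ : P = C (2 : ℚ) * Q.map (Int.castRingHom ℚ) := by
    apply mul_left_cancel₀ hL0
    rw [hP, hQ, Polynomial.map_mul]
    ring
  have hTl := T_lead A hA
  have hT0 : T A ≠ 0 := by
    intro h
    rw [h, natDegree_zero] at hTl
    omega
  have hQ0 : Q ≠ 0 := by
    rintro rfl
    rw [mul_zero] at hQ
    exact hT0 hQ
  have hQp : Q.IsPrimitive := isPrimitive_of_dvd (T_prim A hA) ⟨L4, by rw [hQ]; ring⟩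
  have hQd : Q.natDegree = 2 * A - 2 := by
    have h1 := hTl.1
    rw [hQ, L4_monic.natDegree_mul' hQ0, L4_deg] at h1
    omega
  have hQl : Q.leadingCoeff = A := by
    have h1 := hTl.2
    rw [hQ, leadingCoeff_mul, L4_monic.leadingCoeff, one_mul] at h1
    exact h1
  have hQu : ¬ IsUnit Q := by
    intro h
    have := natDegree_eq_zero_of_isUnit h
    omega
  have hQi : ¬ Irreducible Q := by
    intro h
    apply hirr
    have h1 := (IsPrimitive.Int.irreducible_iff_irreducible_map_cast hQp).1 h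
    rw [hPQ]
    exact (irreducible_isUnit_mul h2u).2 h1
  rw [irreducible_iff] at hQi
  push Not at hQi
  obtain ⟨f, g, hfg, hf, hg⟩ := hQi hQu
  have hfd := pos_deg hQp ⟨g, hfg⟩ hf
  have hgd := pos_deg hQp ⟨f, by rw [hfg]; ring⟩ hg
  have hlc : f.leadingCoeff * g.leadingCoeff = A := by
    rw [← leadingCoeff_mul, ← hfg, hQl]
  have hApos : (0 : ℤ) < A := by exact_mod_cast (by omega : 0 < A)
  rcases lt_trichotomy f.leadingCoeff 0 with h1 | h1 | h1
  · refine ⟨-f, -g, ?_, ?_, ?_, ?_, ?_⟩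
    · rw [neg_mul_neg, ← hfg, hQ]
    · rwa [natDegree_neg]
    · rwa [natDegree_neg]
    · rw [leadingCoeff_neg]
      linarith
    · rw [leadingCoeff_neg]
      have h2 : g.leadingCoeff < 0 := by
        by_contra h3
        push Not at h3
        have h4 := mul_nonpos_of_nonpos_of_nonneg h1.le h3
        rw [hlc] at h4
        linarith
      linarith
  · rw [h1, zero_mul] at hlc
    linarith
  · refine ⟨f, g, ?_, hfd, hgd, h1, ?_⟩
    · rw [← hfg, hQ]
    · by_contra h3
      push Not at h3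
      have h4 := mul_nonpos_of_nonneg_of_nonpos h1.le h3
      rw [hlc] at h4
      linarith

end Pool.Agent.L7h6.TN
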